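import Pool.Agent.Q292.Sh.Layer

/-!
# The merge lemma
-/

namespace Q292.Sh

open Finset

section
variable {Q R : Type} [Fintype Q] [Fintype R] [DecidableEq Q] [DecidableEq R]

/-- rates on `Q ⊕ R`: `p` on `Q`, zero on `R` -/
def ext0 (p : Q → ℝ) : Q ⊕ R → ℝ := Sum.elim p (fun _ => 0)

/-- rates on `(Q ⊕ R) ⊕ Q` -/
def extr (p : Q → ℝ) : (Q ⊕ R) ⊕ Q → ℝ := Sum.elim (ext0 p) p

/-- matching involution of `(Q ⊕ R) ⊕ Q` -/
def mtau : (Q ⊕ R) ⊕ Q → (Q ⊕ R) ⊕ Q
  | .inl (.inl q) => .inr q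
  | .inl (.inr r) => .inl (.inr r)
  | .inr q => .inl (.inl q)

/-- `DP`, `DQ` in the two blocks, then the matched lazy transpositions, then `SP`, `SQ` -/
noncomputable def mergeList (p : Q → ℝ) (DP SP : List (Op (Q ⊕ R))) (DQ SQ : List (Op Q)) :
    List (Op ((Q ⊕ R) ⊕ Q)) :=
  (DP.map (Op.map Sum.inl) ++ DQ.map (Op.map Sum.inr)) ++ layer mtau (extr p) ++
    (SP.map (Op.map Sum.inl) ++ SQ.map (Op.map Sum.inr))

/-- a function of two points of `P ⊕ Q` depending only on the blocks -/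
def blockF {P : Type} {Q : Type} (A B C D : ℝ) : P ⊕ Q → P ⊕ Q → ℝ
  | .inl _, .inl _ => A
  | .inr _, .inr _ => B
  | .inl _, .inr _ => C
  | .inr _, .inl _ => D

omit [Fintype Q] [Fintype R] [DecidableEq Q] [DecidableEq R] in
lemma mtau_mtau (x : (Q ⊕ R) ⊕ Q) : mtau (mtau x) = x := by
  rcases x with (x | x) | x <;> rfl

omit [Fintype Q] [Fintype R] [DecidableEq Q] [DecidableEq R] in
lemma extr_mtau (p : Q → ℝ) (x : (Q ⊕ R) ⊕ Q) : extr p (mtau x) = extr p x := by
  rcases x with (x | x) | x <;> rfl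

lemma layF_eq {α : Type} [DecidableEq α] {τ : α → α} {r : α → ℝ} {f : α → α → ℝ} {x y : α}
    (h : y = τ x) : layF τ r f x y = (1 - r x) * f x y + r x * f y x := by
  unfold layF; rw [if_pos h]

lemma layF_ne {α : Type} [DecidableEq α] {τ : α → α} {r : α → ℝ} {f : α → α → ℝ} {x y : α}
    (h : y ≠ τ x) : layF τ r f x y = (1 - r x) * (1 - r y) * f x y + r x * (1 - r y) * f (τ x) y
    + (1 - r x) * r y * f x (τ y) + r x * r y * f (τ x) (τ y) := by
  unfold layF; rw [if_neg h]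

lemma sum_blocks_pp {P : Type} [DecidableEq P] {Q : Type} [DecidableEq Q]
    (L1 : List (Op P)) (L2 : List (Op Q)) (f : P ⊕ Q → P ⊕ Q → ℝ) (x y : P) :
    E2 (L1.map (Op.map Sum.inl) ++ L2.map (Op.map Sum.inr)) f (Sum.inl x) (Sum.inl y)
      = E2 L1 (fun x y => f (Sum.inl x) (Sum.inl y)) x y := by
  rw [E2_append, E2_lift Sum.inl_injective]
  congr 1
  funext x y
  exact E2_lift_out L2 f (fun z => by simp) (fun z => by simp)

lemma sum_blocks_qq {P : Type} [DecidableEq P] {Q : Type} [DecidableEq Q]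
    (L1 : List (Op P)) (L2 : List (Op Q)) (f : P ⊕ Q → P ⊕ Q → ℝ) (x y : Q) :
    E2 (L1.map (Op.map Sum.inl) ++ L2.map (Op.map Sum.inr)) f (Sum.inr x) (Sum.inr y)
      = E2 L2 (fun x y => f (Sum.inr x) (Sum.inr y)) x y := by
  rw [E2_append, E2_lift_out L1 _ (fun z => by simp) (fun z => by simp),
    E2_lift Sum.inr_injective]

lemma sum_blocks_pq {P : Type} [DecidableEq P] {Q : Type} [DecidableEq Q]
    (L1 : List (Op P)) (L2 : List (Op Q)) (f : P ⊕ Q → P ⊕ Q → ℝ) (x : P) (y : Q) :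
    E2 (L1.map (Op.map Sum.inl) ++ L2.map (Op.map Sum.inr)) f (Sum.inl x) (Sum.inr y)
      = E1 L1 (fun x => E1 L2 (fun y => f (Sum.inl x) (Sum.inr y)) y) x := by
  rw [E2_append, E2_lift_fst Sum.inl_injective _ _ _ (fun z => by simp)]
  congr 1
  funext x
  exact E2_lift_snd Sum.inr_injective _ _ _ (fun z => by simp)

lemma sum_blocks_qp {P : Type} [DecidableEq P] {Q : Type} [DecidableEq Q]
    (L1 : List (Op P)) (L2 : List (Op Q)) (f : P ⊕ Q → P ⊕ Q → ℝ) (x : Q) (y : P) :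
    E2 (L1.map (Op.map Sum.inl) ++ L2.map (Op.map Sum.inr)) f (Sum.inr x) (Sum.inl y)
      = E1 L1 (fun y => E1 L2 (fun x => f (Sum.inr x) (Sum.inl y)) x) y := by
  rw [E2_append, E2_lift_snd Sum.inl_injective _ _ _ (fun z => by simp)]
  congr 1
  funext y
  exact E2_lift_fst Sum.inr_injective _ _ _ (fun z => by simp)

/-- average over distinct pairs of a bilinear function -/
lemma avg2_bilin {P : Type} [Fintype P] [DecidableEq P] (h : P → ℝ) (c0 c1 c2 c3 : ℝ) :
    avg2 (fun x y : P => c0 + c1 * h x + c2 * h y + c3 * (h x * h y)) =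
      ((Fintype.card P : ℝ) * ((Fintype.card P : ℝ) - 1) * c0
        + (c1 + c2) * ((Fintype.card P : ℝ) - 1) * (∑ x, h x)
        + c3 * ((∑ x, h x) ^ 2 - ∑ x, h x ^ 2)) /
        ((Fintype.card P : ℝ) * ((Fintype.card P : ℝ) - 1)) := by
  unfold avg2
  congr 1
  have h1 : ∀ x : P, rowSum (fun x y : P => c0 + c1 * h x + c2 * h y + c3 * (h x * h y)) x
      = ((Fintype.card P : ℝ) * c0 - c0 + c2 * ∑ y, h y)
        + (((Fintype.card P : ℝ) - 1) * c1 - c2 + c3 * ∑ y, h y) * h x - c3 * h x ^ 2 := by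
    intro x
    unfold rowSum
    rw [Finset.sum_erase_eq_sub (mem_univ x)]
    simp only [sum_add_distrib, ← mul_sum, sum_const, card_univ, nsmul_eq_mul]
    ring
  simp only [h1, sum_sub_distrib, sum_add_distrib, ← mul_sum, sum_const, card_univ, nsmul_eq_mul]
  ring

theorem merge_core (p : Q → ℝ) {a b : ℝ} (ha : a = (Fintype.card (Q ⊕ R) : ℝ))
    (hb : b = (Fintype.card Q : ℝ)) (hb1 : 1 ≤ b)
    (hS1 : (a + b) * ∑ q, p q = a * b)
    (hS2 : (a + b) ^ 2 * (a + b - 1) * ∑ q, p q ^ 2 = a * b * ((a + b) * (a + b - 1) - a * b))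
    {DP SP : List (Op (Q ⊕ R))} {DQ SQ : List (Op Q)}
    (hDP1 : Uni1 DP) (hDP2 : ∀ Φ : ℝ → ℝ → ℝ, ∀ x y, x ≠ y →
      E2 DP (fun x y => Φ (ext0 p x) (ext0 p y)) x y
        = avg2 (fun x y : Q ⊕ R => Φ (ext0 p x) (ext0 p y)))
    (hDQ1 : Uni1 DQ) (hDQ2 : ∀ Φ : ℝ → ℝ → ℝ, ∀ x y, x ≠ y →
      E2 DQ (fun x y => Φ (p x) (p y)) x y = avg2 (fun x y : Q => Φ (p x) (p y)))
    (hSP : Uni2 SP) (hSQ : Uni2 SQ) : Uni2 (mergeList p DP SP DQ SQ) := by
  have hab : b ≤ a := by
    rw [ha, hb, Fintype.card_sum]; push_cast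
    have : (0 : ℝ) ≤ (Fintype.card R : ℝ) := by positivity
    linarith
  have hn1 : 0 < a + b - 1 := by linarith
  have hn : 0 < a + b := by linarith
  have ha0 : 0 < a := by linarith
  have hb0 : 0 < b := by linarith
  set S1 := ∑ q, p q with hS1d
  set S2 := ∑ q, p q ^ 2 with hS2d
  have e1 : S1 = a * b / (a + b) := by
    rw [eq_div_iff hn.ne']; linarith
  have e2 : S2 = a * b * ((a + b) * (a + b - 1) - a * b) / ((a + b) ^ 2 * (a + b - 1)) := by
    rw [eq_div_iff (by positivity)]; linarith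
  have eT : S1 ^ 2 - S2 = a * b * (a - 1) * (b - 1) / ((a + b) * (a + b - 1)) := by
    rw [e1, e2]; field_simp; ring
  have sP1 : ∑ x : Q ⊕ R, ext0 p x = S1 := by
    rw [Fintype.sum_sum_type]; simp [ext0, hS1d]
  have sP2 : ∑ x : Q ⊕ R, ext0 p x ^ 2 = S2 := by
    rw [Fintype.sum_sum_type]; simp [ext0, hS2d]
  apply uni2_of_const
  intro f
  set AP := avg2 (fun x y : Q ⊕ R => f (Sum.inl x) (Sum.inl y)) with hAP
  set AQ := avg2 (fun x y : Q => f (Sum.inr x) (Sum.inr y)) with hAQ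
  set C := avg1 (fun x : Q ⊕ R => avg1 (fun y : Q => f (Sum.inl x) (Sum.inr y))) with hC
  set D := avg1 (fun y : Q ⊕ R => avg1 (fun x : Q => f (Sum.inr x) (Sum.inl y))) with hD
  have hSP1 := hSP.uni1
  have hSQ1 := hSQ.uni1
  -- third stage
  have h3 : ∀ z w : (Q ⊕ R) ⊕ Q, z ≠ w →
      E2 (SP.map (Op.map Sum.inl) ++ SQ.map (Op.map Sum.inr)) f z w = blockF AP AQ C D z w := by
    rintro (x | x) (y | y) hzw
    · rw [sum_blocks_pp, hSP _ x y (fun h => hzw (by rw [h]))]; rfl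
    · rw [sum_blocks_pq]
      simp only [hSQ1 _ _]
      rw [hSP1]; rfl
    · rw [sum_blocks_qp]
      simp only [hSQ1 _ _]
      rw [hSP1]; rfl
    · rw [sum_blocks_qq, hSQ _ x y (fun h => hzw (by rw [h]))]; rfl
  -- second stage
  set H : (Q ⊕ R) ⊕ Q → (Q ⊕ R) ⊕ Q → ℝ := layF mtau (extr p) (blockF AP AQ C D) with hH
  have h2 : ∀ z w : (Q ⊕ R) ⊕ Q, z ≠ w →
      E2 (layer mtau (extr p) ++ (SP.map (Op.map Sum.inl) ++ SQ.map (Op.map Sum.inr))) f z w
        = H z w := by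
    intro z w hzw
    rw [E2_append, E2_congr _ h3 hzw, E2_layer mtau_mtau (extr_mtau p) _ hzw]
  have Hpp : ∀ x y : Q ⊕ R, x ≠ y → H (Sum.inl x) (Sum.inl y) =
      AP + (D - AP) * ext0 p x + (C - AP) * ext0 p y
        + (AP + AQ - C - D) * (ext0 p x * ext0 p y) := by
    intro x y hxy
    have hne : (Sum.inl y : (Q ⊕ R) ⊕ Q) ≠ mtau (Sum.inl x) := by
      rcases x with x | x
      · simp [mtau]
      · intro h
        apply hxy
        simpa [mtau] using h.symm
    rw [hH, layF_ne hne]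
    rcases x with x | x <;> rcases y with y | y <;>
      simp only [mtau, extr, ext0, blockF, Sum.elim_inl, Sum.elim_inr] <;> ring
  have Hqq : ∀ x y : Q, x ≠ y → H (Sum.inr x) (Sum.inr y) =
      AQ + (C - AQ) * p x + (D - AQ) * p y + (AP + AQ - C - D) * (p x * p y) := by
    intro x y hxy
    rw [hH, layF_ne (by simp [mtau])]
    simp only [mtau, extr, blockF, Sum.elim_inr]
    ring
  have Hpq : ∀ (x : Q ⊕ R) (y : Q), H (Sum.inl x) (Sum.inr y) =
      (C + (AQ - C) * ext0 p x + (AP - C) * p y + (C + D - AP - AQ) * (ext0 p x * p y))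
        + if x = Sum.inl y then (C + D - AP - AQ) * (p y - p y ^ 2) else 0 := by
    rintro (x | x) y
    · by_cases h : x = y
      · subst h
        rw [hH, layF_eq (by simp [mtau]), if_pos rfl]
        simp only [extr, ext0, blockF, Sum.elim_inl]
        ring
      · rw [if_neg (by simpa using h), hH, layF_ne (by simpa [mtau] using fun h' => h h'.symm)]
        simp only [mtau, extr, ext0, blockF, Sum.elim_inr, Sum.elim_inl]
        ring
    · rw [if_neg (by simp), hH, layF_ne (by simp [mtau])]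
      simp only [mtau, extr, ext0, blockF, Sum.elim_inr, Sum.elim_inl]
      ring
  have Hqp : ∀ (x : Q) (y : Q ⊕ R), H (Sum.inr x) (Sum.inl y) =
      (D + (AP - D) * p x + (AQ - D) * ext0 p y + (C + D - AP - AQ) * (ext0 p y * p x))
        + if y = Sum.inl x then (C + D - AP - AQ) * (p x - p x ^ 2) else 0 := by
    rintro x (y | y)
    · by_cases h : y = x
      · subst h
        rw [hH, layF_eq (by simp [mtau]), if_pos rfl]
        simp only [extr, ext0, blockF, Sum.elim_inr, Sum.elim_inl]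
        ring
      · rw [if_neg (by simpa using h), hH, layF_ne (by simpa [mtau] using h)]
        simp only [mtau, extr, ext0, blockF, Sum.elim_inr, Sum.elim_inl]
        ring
    · rw [if_neg (by simp), hH, layF_ne (by simp [mtau])]
      simp only [mtau, extr, ext0, blockF, Sum.elim_inr, Sum.elim_inl]
      ring
  -- double averages over the two blocks
  have dbl : ∀ c0 c1 c2 c3 : ℝ,
      avg1 (fun x : Q ⊕ R => avg1 (fun y : Q =>
        (c0 + c1 * ext0 p x + c2 * p y + c3 * (ext0 p x * p y))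
          + if x = Sum.inl y then c3 * (p y - p y ^ 2) else 0)) =
      (a * b * c0 + c1 * b * S1 + c2 * a * S1 + c3 * (S1 ^ 2 + (S1 - S2))) / (a * b) := by
    intro c0 c1 c2 c3
    have h4 : ∑ x : Q ⊕ R, ∑ y : Q, ((c0 + c1 * ext0 p x + c2 * p y + c3 * (ext0 p x * p y))
          + if x = Sum.inl y then c3 * (p y - p y ^ 2) else 0) =
        a * b * c0 + c1 * b * S1 + c2 * a * S1 + c3 * (S1 ^ 2 + (S1 - S2)) := by
      have h5 : ∑ x : Q ⊕ R, ∑ y : Q, (if x = Sum.inl y then c3 * (p y - p y ^ 2) else 0)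
          = c3 * (S1 - S2) := by
        rw [Finset.sum_comm]
        simp only [Finset.sum_ite_eq', mem_univ, if_true, ← mul_sum, sum_sub_distrib]
        rw [← hS1d, ← hS2d]
      have h6 : ∑ x : Q ⊕ R, ∑ y : Q, (c0 + c1 * ext0 p x + c2 * p y + c3 * (ext0 p x * p y))
          = a * b * c0 + c1 * b * S1 + c2 * a * S1 + c3 * S1 ^ 2 := by
        simp only [sum_add_distrib, ← mul_sum, sum_const, card_univ, nsmul_eq_mul, ← sum_mul,
          sP1, ← hS1d, ← ha, ← hb]
        ring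
      simp only [sum_add_distrib] at h5 h6 ⊢
      rw [h5, h6]; ring
    unfold avg1
    rw [← sum_div, h4, ← ha, ← hb, div_div, mul_comm b a]
  refine ⟨(a * (a - 1) * AP + b * (b - 1) * AQ + a * b * (C + D)) / ((a + b) * (a + b - 1)), ?_⟩
  intro z w hzw
  have h1 : E2 (mergeList p DP SP DQ SQ) f z w =
      E2 (DP.map (Op.map Sum.inl) ++ DQ.map (Op.map Sum.inr)) H z w := by
    unfold mergeList
    rw [List.append_assoc, E2_append, E2_congr _ h2 hzw]
  rw [h1]
  rcases z with x | x <;> rcases w with y | y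
  · -- both in the large block
    have hxy : x ≠ y := fun h => hzw (by rw [h])
    have hca : 1 < a := by rw [ha]; exact one_lt_card_of_ne hxy
    rw [sum_blocks_pp, E2_congr _ Hpp hxy,
      hDP2 (fun u v => AP + (D - AP) * u + (C - AP) * v + (AP + AQ - C - D) * (u * v)) x y hxy,
      avg2_bilin (fun x => ext0 p x), sP1, sP2, ← ha, eT, e1]
    have : a - 1 ≠ 0 := by linarith
    field_simp
    ring
  · rw [sum_blocks_pq]
    simp only [hDQ1 _ _]
    rw [hDP1]
    simp only [Hpq]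
    rw [dbl]
    have e3 : S1 ^ 2 + (S1 - S2) = a * b * (a - 1) * (b - 1) / ((a + b) * (a + b - 1)) + S1 := by
      rw [← eT]; ring
    rw [e3, e1]
    field_simp
    ring
  · rw [sum_blocks_qp]
    simp only [hDQ1 _ _]
    rw [hDP1]
    simp only [Hqp]
    have e3 : S1 ^ 2 + (S1 - S2) = a * b * (a - 1) * (b - 1) / ((a + b) * (a + b - 1)) + S1 := by
      rw [← eT]; ring
    have := dbl D (AQ - D) (AP - D) (C + D - AP - AQ)
    have h7 : ∀ (x : Q) (y : Q ⊕ R),
      ((D + (AP - D) * p x + (AQ - D) * ext0 p y + (C + D - AP - AQ) * (ext0 p y * p x))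
        + if y = Sum.inl x then (C + D - AP - AQ) * (p x - p x ^ 2) else 0) =
      ((D + (AQ - D) * ext0 p y + (AP - D) * p x + (C + D - AP - AQ) * (ext0 p y * p x))
        + if y = Sum.inl x then (C + D - AP - AQ) * (p x - p x ^ 2) else 0) := by
      intro x y; ring
    simp only [h7]
    rw [this, e3, e1]
    field_simp
    ring
  · have hxy : x ≠ y := fun h => hzw (by rw [h])
    have hcb : 1 < b := by rw [hb]; exact one_lt_card_of_ne hxy
    rw [sum_blocks_qq, E2_congr _ Hqq hxy,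
      hDQ2 (fun u v => AQ + (C - AQ) * u + (D - AQ) * v + (AP + AQ - C - D) * (u * v)) x y hxy,
      avg2_bilin (fun x => p x), ← hS1d, ← hS2d, ← hb, eT, e1]
    have : b - 1 ≠ 0 := by linarith
    field_simp
    ring

end

end Q292.Sh
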